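import Pool.Agent.H295R2.MK.Defs

set_option autoImplicit false

/-! Task S1 of `h295k_tasks`: asymptotic lower bound for `EE`. -/

namespace H388MK

open Finset Filter Topology MeasureTheory Complex
open Pool.Agent.H306R2 H295MK

noncomputable section

/-- the continuous minorant -/
def phi (d : ℝ) (u : Fin 4 → ℝ) : ℝ :=
  sc (1 / 2 - d) d (u 0) * sc (1 / 2 - d) d (u 1 + u 2) * sc (1 / 2 - d) d (u 1 + u 3)

lemma phi_cont (d : ℝ) : Continuous (phi d) := by
  unfold phi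
  exact (((sc_cont _ _).comp (by fun_prop)).mul ((sc_cont _ _).comp (by fun_prop))).mul
    ((sc_cont _ _).comp (by fun_prop))

lemma phi_nonneg (d : ℝ) (u : Fin 4 → ℝ) : 0 ≤ phi d u :=
  mul_nonneg (mul_nonneg (sc_nonneg _ _ _) (sc_nonneg _ _ _)) (sc_nonneg _ _ _)

lemma phi_le_one (d : ℝ) (u : Fin 4 → ℝ) : phi d u ≤ 1 :=
  mul_le_one₀ (mul_le_one₀ (sc_le_one _ _ _) (sc_nonneg _ _ _) (sc_le_one _ _ _)) (sc_nonneg _ _ _)
    (sc_le_one _ _ _)

lemma phi_le {d : ℝ} (hd : 0 < d) (u : Fin 4 → ℝ) : phi d u ≤ chE (1 / 2) u := by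
  unfold chE
  split_ifs with h
  · exact phi_le_one d u
  · unfold phi
    by_cases h0 : u 0 ≤ 1 / 2
    · by_cases h1 : u 1 + u 2 ≤ 1 / 2
      · have h2 : 1 / 2 < u 1 + u 3 := by
          by_contra hh
          exact h ⟨h0, h1, not_lt.mp hh⟩
        rw [sc_eq_zero hd (x := u 1 + u 3) (by linarith), mul_zero]
      · rw [sc_eq_zero hd (x := u 1 + u 2) (by linarith [not_le.mp h1]), mul_zero, zero_mul]
    · rw [sc_eq_zero hd (x := u 0) (by linarith [not_le.mp h0]), zero_mul, zero_mul]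

lemma le_phi {d : ℝ} (hd : 0 < d) (u : Fin 4 → ℝ) : chE (1 / 2 - d) u ≤ phi d u := by
  unfold chE
  split_ifs with h
  · unfold phi
    rw [sc_eq_one hd h.1, sc_eq_one hd h.2.1, sc_eq_one hd h.2.2]
    norm_num
  · exact phi_nonneg d u

lemma W4_nonneg (j : ℕ) (b : Fin 4 → ℕ) : 0 ≤ W4 j b := by
  unfold W4
  split_ifs
  · have h : ∀ n, 0 ≤ dv (j : ℝ) n := fun n => dv_nonneg (Nat.cast_nonneg j) n
    have := h (b 0 * b 2)
    have := h (b 1 * b 2)
    have := h (b 0 * b 3)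
    have := h (b 1 * b 3)
    positivity
  · exact le_rfl

lemma phi_supp {d : ℝ} (hd : 0 < d) (hd2 : d < 1 / 2) (u : Fin 4 → ℝ) (hu : ∀ i, 0 ≤ u i)
    (h : ∃ i, (1 : ℝ) ≤ u i) : phi d u = 0 := by
  have h0 : phi d u ≤ chE (1 / 2) u := phi_le hd u
  have h1 : chE (1 / 2) u = 0 := by
    unfold chE
    rw [if_neg]
    rintro ⟨ha, hb, hc⟩
    obtain ⟨i, hi⟩ := h
    have := hu 0
    have := hu 1
    have := hu 2
    have := hu 3
    fin_cases i <;> simp only [Fin.zero_eta, Fin.isValue, Fin.mk_one, Fin.reduceFinMk] at hi <;> linarith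
  exact le_antisymm (h0.trans h1.le) (phi_nonneg d u)

theorem ee_low (h1 : Kar4) (h2 : EEsum) (h3 : VolE) : EElow := by
  intro j c hj hc
  have hj0 : (0 : ℝ) < (j : ℝ) := by exact_mod_cast hj
  have hm : ∀ i, 0 < m4 j i := fun i => by unfold m4; positivity
  have haF : 0 < aF (2 * (j : ℝ)) := aF_pos (by positivity)
  -- choose d
  have hcont : Tendsto (fun d : ℝ => aF (2 * (j : ℝ)) * ((1 / 2 - d) ^ (4 * j ^ 2) * volE (j ^ 2)))
      (𝓝[>] 0) (𝓝 (aF (2 * (j : ℝ)) * ((1 / 2 - 0) ^ (4 * j ^ 2) * volE (j ^ 2)))) := by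
    have : Continuous (fun d : ℝ => aF (2 * (j : ℝ)) * ((1 / 2 - d) ^ (4 * j ^ 2) * volE (j ^ 2))) := by
      fun_prop
    exact (this.tendsto 0).mono_left nhdsWithin_le_nhds
  rw [sub_zero] at hcont
  have hev := (hcont.eventually (lt_mem_nhds hc)).and
    (Ioo_mem_nhdsGT (show (0 : ℝ) < 1 / 2 by norm_num))
  obtain ⟨d, hdc, hd0, hd2⟩ := hev.exists
  -- integral lower bound
  have hI := h3 j (1 / 2 - d) hj (by linarith)
  have hI2 := h3 j (1 / 2) hj (by norm_num)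
  have hGint : Integrable (fun u : Fin 4 → ℝ => Gd (m4 j) u * phi d u) := by
    refine hI2.1.mono' ?_ (Eventually.of_forall fun u => ?_)
    · have hme : AEStronglyMeasurable (fun u : Fin 4 → ℝ => Gd (m4 j) u) volume := by
        have : Measurable (fun u : Fin 4 → ℝ => Gd (m4 j) u) := by
          unfold Gd
          exact Finset.measurable_prod _ fun i _ => (gd_meas (m4 j i)).comp (measurable_pi_apply i)
        exact this.aestronglyMeasurable
      exact hme.mul (phi_cont d).aestronglyMeasurable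
    · rw [Real.norm_of_nonneg (mul_nonneg (Gd_nonneg hm u) (phi_nonneg d u))]
      exact mul_le_mul_of_nonneg_left (phi_le hd0 u) (Gd_nonneg hm u)
  have hIle : (1 / 2 - d) ^ (4 * j ^ 2) * volE (j ^ 2) ≤
      ∫ u : Fin 4 → ℝ, Gd (m4 j) u * phi d u := by
    rw [← hI.2]
    exact integral_mono hI.1 hGint fun u => mul_le_mul_of_nonneg_left (le_phi hd0 u) (Gd_nonneg hm u)
  have hlim := h1 j (phi d) 1 hj (phi_cont d) (by norm_num)
    (fun u hu h => phi_supp hd0 hd2 u hu h)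
  have hc2 : c < aF (2 * (j : ℝ)) * ∫ u : Fin 4 → ℝ, Gd (m4 j) u * phi d u :=
    lt_of_lt_of_le hdc (mul_le_mul_of_nonneg_left hIle haF.le)
  filter_upwards [hlim.eventually (lt_mem_nhds hc2), eventually_gt_atTop (0 : ℝ)] with L hL hL0
  have hLp : 0 < L ^ (4 * (j : ℝ) ^ 2) := Real.rpow_pos_of_pos hL0 _
  rw [lt_div_iff₀ hLp] at hL
  have hconv : L ^ (4 * (j : ℝ) ^ 2) = L ^ (4 * j ^ 2) := by
    have h := Real.rpow_natCast L (4 * j ^ 2)
    push_cast at h
    exact h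
  rw [hconv] at hL
  obtain ⟨hs, he⟩ := h2 j L (1 / 2) hj hL0 (by norm_num)
  rw [he]
  refine hL.le.trans ?_
  have hle : ∀ b : Fin 4 → ℕ, W4 j b * phi d (pos L b) ≤ W4 j b * chE (1 / 2) (pos L b) :=
    fun b => mul_le_mul_of_nonneg_left (phi_le hd0 _) (W4_nonneg j b)
  refine Summable.tsum_le_tsum hle ?_ hs
  exact Summable.of_nonneg_of_le (fun b => mul_nonneg (W4_nonneg j b) (phi_nonneg d _)) hle hs

end

end H388MK
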